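import Pool.Agent.Lib.MP_b1882c_co.Bridge

namespace Pool.Agent.Results.MP_b1882c_co.FourOrbits

/-- The Euclidean plane. -/
abbrev Plane : Type := EuclideanSpace ℝ (Fin 2)

/-- `g` is an isometry of the plane mapping the point set onto itself and the line set onto
itself. -/
def IsSymmetry (P : Set Plane) (Ls : Set (Set Plane)) (g : Plane ≃ᵢ Plane) : Prop :=
  g '' P = P ∧ (fun L : Set Plane => g '' L) '' Ls = Ls

/-- The orbits of the symmetry group on the points. -/
def pointOrbits (P : Set Plane) (Ls : Set (Set Plane)) : Set (Set Plane) :=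
  (fun p => {q | ∃ g, IsSymmetry P Ls g ∧ g p = q}) '' P

/-- The orbits of the symmetry group on the lines. -/
def lineOrbits (P : Set Plane) (Ls : Set (Set Plane)) : Set (Set (Set Plane)) :=
  (fun L => {M | ∃ g, IsSymmetry P Ls g ∧ g '' L = M}) '' Ls

theorem three_reps {α β : Type} {S : Set α} (hS : S.Finite) (hne : S.Nonempty) (φ : α → β)
    (h : (φ '' S).ncard ≤ 3) : ∃ p : Fin 3 → α, (∀ i, p i ∈ S) ∧ ∀ q ∈ S, ∃ i, φ (p i) = φ q := by
  have : Finite (φ '' S) := (hS.image φ).to_subtype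
  have : Nonempty (φ '' S) := (hne.image φ).to_subtype
  have hc : Nat.card (φ '' S) ≤ Nat.card (Fin 3) := by
    rw [Nat.card_coe_set_eq]
    simpa using h
  have := Fintype.ofFinite (φ '' S)
  rw [Nat.card_eq_fintype_card, Nat.card_eq_fintype_card] at hc
  obtain ⟨e⟩ := Function.Embedding.nonempty_of_card_le hc
  have hs := Function.invFun_surjective e.injective
  choose p hp hp' using fun i => (Function.invFun e i).2
  refine ⟨p, hp, fun q hq => ?_⟩
  obtain ⟨i, hi⟩ := hs ⟨φ q, q, hq, rfl⟩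
  exact ⟨i, by rw [hp' i, hi]⟩

/-- The symmetry group of a geometric 5-configuration in the Euclidean plane has at least four
orbits on the points or at least four orbits on the lines. -/
theorem result (P : Set Plane) (Ls : Set (Set Plane)) (hP : P.Finite) (hLs : Ls.Finite)
    (hne : P.Nonempty)
    (hline : ∀ L ∈ Ls, ∃ a b : Plane, a ≠ b ∧ L = (affineSpan ℝ {a, b} : AffineSubspace ℝ Plane))
    (hpt : ∀ p ∈ P, {L ∈ Ls | p ∈ L}.ncard = 5)
    (hln : ∀ L ∈ Ls, {p ∈ P | p ∈ L}.ncard = 5) :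
    4 ≤ (pointOrbits P Ls).ncard ∨ 4 ≤ (lineOrbits P Ls).ncard := by
  by_contra hcon
  rw [not_or, not_le, not_le, Nat.lt_succ_iff, Nat.lt_succ_iff] at hcon
  have hid : IsSymmetry P Ls (IsometryEquiv.refl Plane) := by
    constructor
    · exact Set.image_id P
    · have : (fun L : Set Plane => (IsometryEquiv.refl Plane) '' L) = id :=
        funext fun L => Set.image_id L
      rw [this, Set.image_id]
  have hne' : Ls.Nonempty := by
    obtain ⟨p, hp⟩ := hne
    obtain ⟨L, hL⟩ := Set.nonempty_of_ncard_ne_zero (s := {L ∈ Ls | p ∈ L})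
      (by rw [hpt p hp]; norm_num)
    exact ⟨L, hL.1⟩
  obtain ⟨p, hp, op⟩ := three_reps hP hne _ hcon.1
  obtain ⟨L, hL, oL⟩ := three_reps hLs hne' _ hcon.2
  have hA : ∀ M ∈ Ls, ∃ A : AffineSubspace ℝ Plane, (A : Set Plane) = M := fun M hM => by
    obtain ⟨a, b, -, h⟩ := hline M hM
    exact ⟨_, h.symm⟩
  choose A hA' using fun i => hA (L i) (hL i)
  refine Pool.Agent.Lib.MP_b1882c_co.euclid_false Complex.orthonormalBasisOneI.repr.symm P
    {B | (B : Set Plane) ∈ Ls} {g | IsSymmetry P Ls g} hP ?_ ?_ (fun B hB => hln _ hB)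
    (fun g hg => hg.1) ?_ p hp ?_ A (fun i => by rw [Set.mem_ofPred_eq, hA' i]; exact hL i) ?_
  · intro B hB
    obtain ⟨a, b, hab, h⟩ := hline _ hB
    rw [SetLike.coe_injective h, direction_affineSpan, vectorSpan_pair]
    exact finrank_span_singleton (vsub_ne_zero.2 hab)
  · intro q hq
    rw [← hpt q hq, ← Set.ncard_image_of_injective _
      (SetLike.coe_injective (A := AffineSubspace ℝ Plane))]
    congr 1
    ext M
    constructor
    · rintro ⟨B, hB, rfl⟩
      exact hB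
    · rintro ⟨hM, hq'⟩
      obtain ⟨B, rfl⟩ := hA M hM
      exact ⟨B, ⟨hM, hq'⟩, rfl⟩
  · intro g hg B hB
    have h1 : g '' (B : Set Plane) ∈ Ls := hg.2 ▸ Set.mem_image_of_mem _ hB
    obtain ⟨C, hC⟩ := hA _ h1
    exact ⟨C, by rw [Set.mem_ofPred_eq, hC]; exact h1, hC.symm⟩
  · intro q hq
    obtain ⟨i, hi⟩ := op q hq
    have h1 : q ∈ {r | ∃ g, IsSymmetry P Ls g ∧ g q = r} := ⟨_, hid, rfl⟩
    obtain ⟨g, hg, e⟩ := (Set.ext_iff.1 hi q).2 h1
    exact ⟨i, g, hg, e⟩
  · intro B hB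
    obtain ⟨i, hi⟩ := oL _ hB
    have h1 : (B : Set Plane) ∈ {M | ∃ g, IsSymmetry P Ls g ∧ g '' (B : Set Plane) = M} :=
      ⟨_, hid, Set.image_id _⟩
    obtain ⟨g, hg, e⟩ := (Set.ext_iff.1 hi _).2 h1
    exact ⟨i, g, hg, by rw [hA' i]; exact e⟩

end Pool.Agent.Results.MP_b1882c_co.FourOrbits
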